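import Pool.Agent.NL.StmtsM

/-!
# NLO EXT: generic configurations have generic extensions
-/

set_option autoImplicit false

open MeasureTheory Filter Topology Set

noncomputable section

namespace Pool.Agent.NL.H83

theorem ext : ExtStmt := by
  classical
  intro P W hP N
  unfold GnP
  rw [ae_all_iff]
  intro l
  have h := hP (N + l)
  have he : MeasurePreserving (MeasurableEquiv.piCongrLeft (fun _ : Fin (N + l) => ℝ)
      (finSumFinEquiv (m := N) (n := l))) volume volume :=
    volume_measurePreserving_piCongrLeft (fun _ => ℝ) finSumFinEquiv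
  have hs : MeasurePreserving (MeasurableEquiv.sumPiEquivProdPi
      (fun _ : Fin N ⊕ Fin l => ℝ)).symm volume volume :=
    volume_measurePreserving_sumPiEquivProdPi_symm _
  have h2 := (he.comp hs).quasiMeasurePreserving.ae h
  rw [Measure.volume_eq_prod] at h2
  have h3 := Measure.ae_ae_of_ae_prod h2
  filter_upwards [h3] with v hv
  filter_upwards [hv] with v' hv'
  have key : ∀ i : Fin N ⊕ Fin l, (MeasurableEquiv.piCongrLeft (fun _ : Fin (N + l) => ℝ)
      (finSumFinEquiv (m := N) (n := l)))
      ((MeasurableEquiv.sumPiEquivProdPi (fun _ : Fin N ⊕ Fin l => ℝ)).symm (v, v'))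
      (finSumFinEquiv i) = Sum.elim v v' i := by
    intro i
    rw [MeasurableEquiv.coe_piCongrLeft, Equiv.piCongrLeft_apply_apply]
    cases i <;> rfl
  have hi : Finset.univ.image ((MeasurableEquiv.piCongrLeft (fun _ : Fin (N + l) => ℝ)
      (finSumFinEquiv (m := N) (n := l)))
      ((MeasurableEquiv.sumPiEquivProdPi (fun _ : Fin N ⊕ Fin l => ℝ)).symm (v, v'))) =
      Finset.univ.image v ∪ Finset.univ.image v' := by
    ext x
    simp only [Finset.mem_image, Finset.mem_univ, true_and, Finset.mem_union]
    constructor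
    · rintro ⟨i, rfl⟩
      obtain ⟨j, rfl⟩ := (finSumFinEquiv (m := N) (n := l)).surjective i
      rw [key]
      cases j with
      | inl j => exact Or.inl ⟨j, rfl⟩
      | inr j => exact Or.inr ⟨j, rfl⟩
    · rintro (⟨j, rfl⟩ | ⟨j, rfl⟩)
      · exact ⟨finSumFinEquiv (Sum.inl j), key _⟩
      · exact ⟨finSumFinEquiv (Sum.inr j), key _⟩
  rw [Finset.union_assoc, ← hi]
  exact hv'

end Pool.Agent.NL.H83
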