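import Pool.Agent.NL.StmtsM

/-!
# NLO SLI: approximate continuity in one coordinate
-/

set_option autoImplicit false

open MeasureTheory Filter Topology Set

noncomputable section

namespace Pool.Agent.NL.H83

theorem sli (hL : LebStmt) (hM : MrkStmt) (_ : MeaStmt) : SliStmt := by
  intro t h C hm hb j
  have hI : ∀ n : ℕ, Measurable fun w : Fin t → ℝ =>
      ((n : ℝ) + 1) * ∫ x in nb n (w j), |h (Function.update w j x) - h w| := by
    intro n
    refine Measurable.const_mul ?_ _
    have e1 : (fun w : Fin t → ℝ => ∫ x in nb n (w j), |h (Function.update w j x) - h w|) =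
        fun w => ∫ x, (nb n (w j)).indicator (fun x => |h (Function.update w j x) - h w|) x := by
      funext w
      rw [integral_indicator]
      exact measurableSet_Icc
    rw [e1]
    refine (StronglyMeasurable.integral_prod_right (f := fun (w : Fin t → ℝ) (x : ℝ) =>
      (nb n (w j)).indicator (fun x => |h (Function.update w j x) - h w|) x) ?_).measurable
    refine Measurable.stronglyMeasurable ?_
    have e : Function.uncurry (fun (w : Fin t → ℝ) (x : ℝ) =>
        (nb n (w j)).indicator (fun x => |h (Function.update w j x) - h w|) x) =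
        Set.indicator {p : (Fin t → ℝ) × ℝ | p.2 ∈ nb n (p.1 j)}
          (fun p => |h (Function.update p.1 j p.2) - h p.1|) := by
      funext p
      rfl
    rw [e]
    refine Measurable.indicator ?_ ?_
    · have h1 : Measurable fun p : (Fin t → ℝ) × ℝ => Function.update p.1 j p.2 :=
        measurable_update'
      have h2 := (hm.comp h1).sub (hm.comp measurable_fst)
      exact h2.norm
    · have h3 : Measurable fun p : (Fin t → ℝ) × ℝ => p.1 j :=
        (measurable_pi_apply j).comp measurable_fst
      have h4 : {p : (Fin t → ℝ) × ℝ | p.2 ∈ nb n (p.1 j)} =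
          {p | p.1 j - 1 / ((n : ℝ) + 1) ≤ p.2} ∩ {p | p.2 ≤ p.1 j + 1 / ((n : ℝ) + 1)} := by
        ext p
        simp [nb, Set.mem_Icc]
      rw [h4]
      exact (measurableSet_le (h3.sub_const _) measurable_snd).inter
        (measurableSet_le measurable_snd (h3.add_const _))
  have hT : MeasurableSet {w : Fin t → ℝ | Tendsto (fun n : ℕ => ((n : ℝ) + 1) *
      ∫ x in nb n (w j), |h (Function.update w j x) - h w|) atTop (𝓝 0)} :=
    measurableSet_tendsto _ hI
  have hmu : ∀ y : Fin t → ℝ, Measurable fun z : ℝ => h (Function.update y j z) := fun y =>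
    hm.comp (measurable_update y)
  have hae : ∀ᵐ w : Fin t → ℝ, w ∈ {w : Fin t → ℝ | Tendsto (fun n : ℕ => ((n : ℝ) + 1) *
      ∫ x in nb n (w j), |h (Function.update w j x) - h w|) atTop (𝓝 0)} := by
    refine ae_mem_of_ae_add_linearMap_mem (LinearMap.single ℝ (fun _ : Fin t => ℝ) j)
      volume volume hT ?_
    intro y
    have h1 := hL.1 (fun z => h (Function.update y j z)) C (hmu y) (fun z => hb _)
    have h2 : ∀ᵐ x : ℝ, Tendsto (fun z => h (Function.update y j z)) (dens (y j + x))
        (𝓝 (h (Function.update y j (y j + x)))) :=
      (measurePreserving_add_left volume (y j)).quasiMeasurePreserving.ae h1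
    filter_upwards [h2] with x hx
    have h3 := (hM (fun z => h (Function.update y j z)) C (hmu y) (fun z => hb _) (y j + x)
      (h (Function.update y j (y j + x)))).2 hx
    have e2 : y + (LinearMap.single ℝ (fun _ : Fin t => ℝ) j) x =
        Function.update y j (y j + x) := by
      funext i
      by_cases hi : i = j
      · subst hi
        simp
      · simp [Function.update_of_ne hi, Pi.single_eq_of_ne hi]
    rw [e2]
    simp only [Function.update_self, Function.update_idem]
    exact h3
  filter_upwards [hae] with w hw
  exact (hM (fun x => h (Function.update w j x)) C (hmu w) (fun z => hb _) (w j) (h w)).1 hw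

end Pool.Agent.NL.H83
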